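import Pool.Agent.SKQ.Stmts

/-!
# Squad SKQ, row ADJ: adjugate and determinant of linear maps
-/

set_option autoImplicit false

namespace Pool.Agent.SKQ.H30

open Metric Set Filter Topology MeasureTheory
open scoped ENNReal
open Helper22QC Pool.Agent.SKQ

variable {n : ℕ}

/-- the matrix of a continuous linear map -/
noncomputable def tm (n : ℕ) : Mt n →ₗ[ℝ] Matrix (Fin n) (Fin n) ℝ where
  toFun M := LinearMap.toMatrix (bs n) (bs n) (M : E n →ₗ[ℝ] E n)
  map_add' M M' := by
    rw [ContinuousLinearMap.toLinearMap_add, map_add]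
  map_smul' c M := by
    rw [ContinuousLinearMap.toLinearMap_smul, map_smul]
    rfl

/-- the continuous linear map of a matrix -/
noncomputable def mt (n : ℕ) : Matrix (Fin n) (Fin n) ℝ →ₗ[ℝ] Mt n where
  toFun A := LinearMap.toContinuousLinearMap (Matrix.toLin (bs n) (bs n) A)
  map_add' A B := by
    rw [map_add, map_add]
  map_smul' c A := by
    rw [map_smul, map_smul]
    rfl

/-- the entries -/
noncomputable def tf (n : ℕ) : Mt n →ₗ[ℝ] (Fin n → Fin n → ℝ) where
  toFun M := fun i j => tm n M i j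
  map_add' M M' := by
    funext i j
    rw [map_add]
    rfl
  map_smul' c M := by
    funext i j
    rw [map_smul]
    rfl

theorem adjV_eq (M : Mt n) : adjV M = mt n (Matrix.adjugate (tm n M)) := rfl

theorem tm_cont : Continuous (tm n) := LinearMap.continuous_of_finiteDimensional _

theorem mt_cont : Continuous (mt n) := LinearMap.continuous_of_finiteDimensional _

theorem det_eq (M : Mt n) : M.det = Matrix.det (tm n M) :=
  (LinearMap.det_toMatrix (bs n) (M : E n →ₗ[ℝ] E n)).symm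

theorem toLin_tm (M : Mt n) : Matrix.toLin (bs n) (bs n) (tm n M) =
    (M : E n →ₗ[ℝ] E n) := Matrix.toLin_toMatrix _ _ _

theorem mul1 (M : Mt n) (v : E n) : M (adjV M v) = M.det • v := by
  have h1 := Matrix.toLin_mul (bs n) (bs n) (bs n) (tm n M) (Matrix.adjugate (tm n M))
  rw [Matrix.mul_adjugate, toLin_tm, map_smul, Matrix.toLin_one, ← det_eq] at h1
  exact (LinearMap.congr_fun h1 v).symm

theorem mul2 (M : Mt n) (v : E n) : adjV M (M v) = M.det • v := by
  have h1 := Matrix.toLin_mul (bs n) (bs n) (bs n) (Matrix.adjugate (tm n M)) (tm n M)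
  rw [Matrix.adjugate_mul, toLin_tm, map_smul, Matrix.toLin_one, ← det_eq] at h1
  exact (LinearMap.congr_fun h1 v).symm

theorem adjV_cont : Continuous (fun M : Mt n => adjV M) := by
  have h : Continuous fun M : Mt n => Matrix.adjugate (tm n M) :=
    Continuous.matrix_adjugate tm_cont
  exact mt_cont.comp h

theorem det_cont : Continuous (fun M : Mt n => M.det) := by
  have h : Continuous fun M : Mt n => Matrix.det (tm n M) := Continuous.matrix_det tm_cont
  exact h.congr fun M => (det_eq M).symm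

theorem adjV_smul (c : ℝ) (M : Mt n) : adjV (c • M) = c ^ (n - 1) • adjV M := by
  rw [adjV_eq, adjV_eq, map_smul, Matrix.adjugate_smul, Fintype.card_fin, map_smul]

theorem adjV_bound : ∃ C : ℝ, 0 < C ∧ ∀ M : Mt n, ‖adjV M‖ ≤ C * ‖M‖ ^ (n - 1) := by
  obtain ⟨C, hC⟩ := (isCompact_closedBall (0 : Mt n) 1).exists_bound_of_continuousOn
    (adjV_cont (n := n)).continuousOn
  refine ⟨max C 1, lt_max_of_lt_right one_pos, fun M => ?_⟩
  have h1 : M = ‖M‖ • (‖M‖⁻¹ • M) := by
    rcases eq_or_ne M 0 with h | h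
    · rw [h]
      refine ContinuousLinearMap.ext fun v => ?_
      rw [ContinuousLinearMap.smul_apply, norm_zero, zero_smul]
      rfl
    · rw [smul_smul, mul_inv_cancel₀ (norm_ne_zero_iff.2 h), one_smul]
  have h2 : ‖M‖⁻¹ • M ∈ closedBall (0 : Mt n) 1 := by
    rw [mem_closedBall_zero_iff, norm_smul, norm_inv, norm_norm]
    exact inv_mul_le_one
  have h3 := hC _ h2
  have h4 : ‖adjV M‖ = ‖M‖ ^ (n - 1) * ‖adjV (‖M‖⁻¹ • M)‖ := by
    conv_lhs => rw [h1]
    rw [adjV_smul, norm_smul, norm_pow, norm_norm]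
  rw [h4, mul_comm]
  exact mul_le_mul_of_nonneg_right (h3.trans (le_max_left _ _)) (by positivity)

theorem det_bound (M : Mt n) : |M.det| ≤ ‖M‖ ^ n := by
  have h1 := Measure.addHaar_image_continuousLinearMap (volume : Measure (E n)) M (ball 0 1)
  have h2 : M '' ball 0 1 ⊆ closedBall 0 ‖M‖ := by
    rintro _ ⟨x, hx, rfl⟩
    rw [mem_closedBall_zero_iff]
    rw [mem_ball_zero_iff] at hx
    exact (M.le_opNorm x).trans (mul_le_of_le_one_right (norm_nonneg _) hx.le)
  have h3 := measure_mono (μ := (volume : Measure (E n))) h2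
  rw [h1, Measure.addHaar_closedBall _ _ (norm_nonneg M), finrank_euclideanSpace_fin] at h3
  have h4 : (volume : Measure (E n)) (ball 0 1) ≠ 0 := (measure_ball_pos _ _ one_pos).ne'
  have h5 : (volume : Measure (E n)) (ball 0 1) ≠ ∞ := measure_ball_lt_top.ne
  have h6 := (ENNReal.mul_le_mul_iff_left h4 h5).1 h3
  exact (ENNReal.ofReal_le_ofReal_iff (by positivity)).1 h6

theorem det_mult (A : Fin n → Fin n → ℝ) :
    ‖(Matrix.detRowAlternating (R := ℝ) (n := Fin n)).toMultilinearMap A‖ ≤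
      (n.factorial : ℝ) * ∏ i, ‖A i‖ := by
  have h1 : (Matrix.detRowAlternating (R := ℝ) (n := Fin n)).toMultilinearMap A =
      Matrix.det (Matrix.of A) := rfl
  rw [h1, ← Matrix.det_transpose, Matrix.det_apply]
  refine (norm_sum_le _ _).trans ?_
  have h2 : ∀ σ : Equiv.Perm (Fin n), ‖Equiv.Perm.sign σ •
      ∏ i, Matrix.transpose (Matrix.of A) (σ i) i‖ ≤ ∏ i, ‖A i‖ := by
    intro σ
    rcases Int.units_eq_one_or (Equiv.Perm.sign σ) with h | h
    · rw [h, one_smul, norm_prod]
      exact Finset.prod_le_prod (fun _ _ => norm_nonneg _) fun i _ => norm_le_pi_norm (A i) (σ i)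
    · rw [h, Units.neg_smul, one_smul, norm_neg, norm_prod]
      exact Finset.prod_le_prod (fun _ _ => norm_nonneg _) fun i _ => norm_le_pi_norm (A i) (σ i)
  refine (Finset.sum_le_sum fun σ _ => h2 σ).trans ?_
  rw [Finset.sum_const, Finset.card_univ, Fintype.card_perm, Fintype.card_fin, nsmul_eq_mul]

theorem det_lip : ∃ C : ℝ, 0 < C ∧ ∀ M M' : Mt n,
    |M.det - M'.det| ≤ C * (‖M‖ + ‖M'‖) ^ (n - 1) * ‖M - M'‖ := by
  obtain ⟨c, hc0, hc⟩ := (LinearMap.toContinuousLinearMap (tf n)).bound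
  have hc' : ∀ M : Mt n, ‖tf n M‖ ≤ c * ‖M‖ := hc
  refine ⟨n.factorial * (n + 1 : ℝ) * c ^ (n - 1) * c, by positivity, fun M M' => ?_⟩
  have h1 := MultilinearMap.norm_image_sub_le_of_bound
    (Matrix.detRowAlternating (R := ℝ) (n := Fin n)).toMultilinearMap
    (by positivity : (0 : ℝ) ≤ n.factorial) det_mult (tf n M) (tf n M')
  have h2 : ‖(Matrix.detRowAlternating (R := ℝ) (n := Fin n)).toMultilinearMap (tf n M) -
      (Matrix.detRowAlternating (R := ℝ) (n := Fin n)).toMultilinearMap (tf n M')‖ =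
      |M.det - M'.det| := by
    rw [det_eq, det_eq]
    rfl
  have h5 : tf n M - tf n M' = tf n (M - M') := (map_sub _ _ _).symm
  rw [h2, Fintype.card_fin, h5] at h1
  refine h1.trans ?_
  have h3 : max ‖tf n M‖ ‖tf n M'‖ ≤ c * (‖M‖ + ‖M'‖) := by
    refine max_le ?_ ?_
    · refine (hc' M).trans (mul_le_mul_of_nonneg_left ?_ hc0.le)
      linarith [norm_nonneg M']
    · refine (hc' M').trans (mul_le_mul_of_nonneg_left ?_ hc0.le)
      linarith [norm_nonneg M]
  have h4 : max ‖tf n M‖ ‖tf n M'‖ ^ (n - 1) ≤ c ^ (n - 1) * (‖M‖ + ‖M'‖) ^ (n - 1) := by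
    rw [← mul_pow]
    exact pow_le_pow_left₀ (le_max_of_le_left (norm_nonneg _)) h3 _
  calc (n.factorial : ℝ) * n * max ‖tf n M‖ ‖tf n M'‖ ^ (n - 1) * ‖tf n (M - M')‖
      ≤ (n.factorial : ℝ) * (n + 1) * (c ^ (n - 1) * (‖M‖ + ‖M'‖) ^ (n - 1)) * (c * ‖M - M'‖) := by
        refine mul_le_mul (mul_le_mul ?_ h4 (by positivity) (by positivity)) (hc' _)
          (norm_nonneg _) (by positivity)
        exact mul_le_mul_of_nonneg_left (by linarith) (by positivity)
    _ = _ := by ring

theorem adj : ADJStmt := by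
  intro n _
  obtain ⟨C1, h1, h2⟩ := adjV_bound (n := n)
  obtain ⟨C2, h3, h4⟩ := det_lip (n := n)
  refine ⟨max C1 C2, lt_max_of_lt_left h1, fun M v => ⟨mul1 M v, mul2 M v⟩, adjV_cont, det_cont,
    fun M => (h2 M).trans (mul_le_mul_of_nonneg_right (le_max_left _ _) (by positivity)),
    det_bound, fun M M' => (h4 M M').trans ?_⟩
  refine mul_le_mul_of_nonneg_right (mul_le_mul_of_nonneg_right (le_max_right _ _) ?_)
    (norm_nonneg _)
  positivity

end Pool.Agent.SKQ.H30
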